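import Pool.Agent.Y443.BE.Wt

set_option autoImplicit false

/-!
# The whole unit circle can consist of eigenvalues of the Beurling operator on `L^p(w)`

For every exponent `1 < α < 2` the weight `|z|^(-α)`, which is in `A_p` for every `p > 1`, has the
property that EVERY complex number of modulus one is an eigenvalue of infinite multiplicity of the
Ahlfors-Beurling operator on `L^p(w)`, for every `p > 1`, with eigenfunctions which do not depend
on `p`. More generally, for every locally integrable weight which has finite mass on the strip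
`|Re (c z)| ≤ 2` the number `c / c̄` is an eigenvalue of infinite multiplicity.
-/

namespace Pool.Agent.Results.MP_c984ee_an.WholeCircle

open MeasureTheory Filter Topology Set Complex

/-- The closed square with corners `a`, `a + b`, `a + b + i b`, `a + i b` (every square in the
plane, in any position, is of this form with `b ≠ 0`). -/
def Square (a b : ℂ) : Set ℂ :=
  (fun z => a + b * z) '' {z : ℂ | 0 ≤ z.re ∧ z.re ≤ 1 ∧ 0 ≤ z.im ∧ z.im ≤ 1}

/-- `w` is a weight (locally integrable, positive almost everywhere) in the class `A_p`. -/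
def IsAp (p : ℝ) (w : ℂ → ℝ) : Prop :=
  LocallyIntegrable w ∧ (∀ᵐ z : ℂ, 0 < w z) ∧
  ∃ C : ℝ, ∀ a b : ℂ, b ≠ 0 →
    ((∫⁻ z in Square a b, ENNReal.ofReal (w z)) / volume (Square a b)) *
      ((∫⁻ z in Square a b, ENNReal.ofReal (w z ^ (-1 / (p - 1)))) / volume (Square a b)) ^
        (p - 1) ≤ ENNReal.ofReal C

/-- The measure `w dA`, so that `L^p(w)` is `L^p` of this measure. -/
noncomputable def weighted (w : ℂ → ℝ) : Measure ℂ :=
  volume.withDensity fun z => ENNReal.ofReal (w z)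

/-- The principal value `-(1/π) p.v. ∫ f(ζ) / (z - ζ)² dA(ζ)` exists and is `v`. -/
def IsBeurlingValue (f : ℂ → ℂ) (z v : ℂ) : Prop :=
  (∀ ε : ℝ, 0 < ε → IntegrableOn (fun ζ : ℂ => f ζ / (z - ζ) ^ 2) {ζ : ℂ | ε < ‖z - ζ‖}) ∧
  Tendsto (fun ε : ℝ => -(1 / (Real.pi : ℂ)) *
    ∫ ζ in {ζ : ℂ | ε < ‖z - ζ‖}, f ζ / (z - ζ) ^ 2) (𝓝[>] 0) (𝓝 v)

/-- `∂φ/∂z̄ = (∂φ/∂x + i ∂φ/∂y) / 2` -/
noncomputable def dbar (φ : ℂ → ℂ) (z : ℂ) : ℂ := (fderiv ℝ φ z 1 + I * fderiv ℝ φ z I) / 2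

/-- `∂φ/∂z = (∂φ/∂x - i ∂φ/∂y) / 2` -/
noncomputable def dz (φ : ℂ → ℂ) (z : ℂ) : ℂ := (fderiv ℝ φ z 1 - I * fderiv ℝ φ z I) / 2

/-- `S` is a bounded operator on `L^p(w)`, written on representatives: it maps `L^p(w)` to
itself, is linear, and is bounded. -/
def IsBounded (p : ℝ) (w : ℂ → ℝ) (S : (ℂ → ℂ) → ℂ → ℂ) : Prop :=
  (∀ f, MemLp f (ENNReal.ofReal p) (weighted w) → MemLp (S f) (ENNReal.ofReal p) (weighted w)) ∧
  (∀ f h : ℂ → ℂ, MemLp f (ENNReal.ofReal p) (weighted w) →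
    MemLp h (ENNReal.ofReal p) (weighted w) → ∀ c : ℂ,
      S (fun z => c * f z + h z) =ᵐ[weighted w] fun z => c * S f z + S h z) ∧
  ∃ C : ℝ, ∀ f, MemLp f (ENNReal.ofReal p) (weighted w) →
    eLpNorm (S f) (ENNReal.ofReal p) (weighted w) ≤
      ENNReal.ofReal C * eLpNorm f (ENNReal.ofReal p) (weighted w)

/-- `S (∂φ/∂z̄) = ∂φ/∂z` almost everywhere, for all `φ ∈ C_c^∞(ℂ)`. -/
def OnTestFunctions (w : ℂ → ℝ) (S : (ℂ → ℂ) → ℂ → ℂ) : Prop :=
  ∀ φ : ℂ → ℂ, ContDiff ℝ ((⊤ : ℕ∞) : WithTop ℕ∞) φ → HasCompactSupport φ →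
    S (dbar φ) =ᵐ[weighted w] dz φ

/-- `l` is an eigenvalue of infinite multiplicity of `T` on `L^p(w)` for all `p > 1` at once:
there is a sequence of continuous functions `F j`, linearly independent modulo null functions,
which are in `L^p(w)` for every `p > 1` and satisfy `T (F j) = l F j`, both in the sense that
the principal value exists and equals `l * F j z` for every `z`, and in the sense that every
bounded operator `S` on `L^p(w)` with `S (∂φ/∂z̄) = ∂φ/∂z` for all test functions satisfies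
`S (F j) = l F j`. -/
def InfiniteMultiplicity (w : ℂ → ℝ) (l : ℂ) : Prop :=
  ∃ F : ℕ → ℂ → ℂ, (∀ j, Continuous (F j)) ∧
    (∀ (s : Finset ℕ) (a : ℕ → ℂ), (fun z => ∑ j ∈ s, a j * F j z) =ᵐ[weighted w] 0 →
      ∀ j ∈ s, a j = 0) ∧
    (∀ j z, IsBeurlingValue (F j) z (l * F j z)) ∧
    ∀ p : ℝ, 1 < p → ∀ j, MemLp (F j) (ENNReal.ofReal p) (weighted w) ∧
      ∀ S : (ℂ → ℂ) → ℂ → ℂ, IsBounded p w S → OnTestFunctions w S →
        S (F j) =ᵐ[weighted w] fun z => l * F j z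

/-- The general criterion. -/
theorem general (w : ℂ → ℝ) (h1 : LocallyIntegrable w) (h2 : ∀ᵐ z : ℂ, 0 < w z) (c : ℂ)
    (hc : c ≠ 0) (h3 : weighted w {z | |(c * z).re| ≤ 2} < ⊤) :
    InfiniteMultiplicity w (c / (starRingEnd ℂ) c) := by
  haveI : IsFiniteMeasureOnCompacts (weighted w) := Pool.Agent.Y443.BE.wm_compact h1
  have hne : ∀ j : ℕ, (3 : ℂ) ^ j * c ≠ 0 := fun j =>
    mul_ne_zero (pow_ne_zero _ (by norm_num)) hc
  have hk : ∀ j : ℕ, ((3 : ℂ) ^ j * c) / (starRingEnd ℂ) ((3 : ℂ) ^ j * c) =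
      c / (starRingEnd ℂ) c := by
    intro j
    have h5 : (starRingEnd ℂ) (3 : ℂ) = 3 := by
      rw [show (3 : ℂ) = ((3 : ℝ) : ℂ) by norm_num, Complex.conj_ofReal]
    rw [map_mul, map_pow, h5]
    exact mul_div_mul_left _ _ (pow_ne_zero _ (by norm_num))
  have hstrip : ∀ j : ℕ, weighted w {z | |((3 : ℂ) ^ j * c * z).re| ≤ 2} < ⊤ := by
    intro j
    refine lt_of_le_of_lt (measure_mono fun z hz => ?_) h3
    change |(c * z).re| ≤ 2
    change |((3 : ℂ) ^ j * c * z).re| ≤ 2 at hz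
    have e : ((3 : ℂ) ^ j * c * z).re = (3 : ℝ) ^ j * (c * z).re := by
      rw [mul_assoc, show (3 : ℂ) ^ j = (((3 : ℝ) ^ j : ℝ) : ℂ) by push_cast; rfl,
        Complex.re_ofReal_mul]
    rw [e, abs_mul, abs_of_pos (by positivity : (0 : ℝ) < 3 ^ j)] at hz
    have h6 : (1 : ℝ) ≤ 3 ^ j := one_le_pow₀ (by norm_num)
    nlinarith [abs_nonneg (c * z).re]
  refine ⟨fun j => Pool.Agent.Y443.BE.efc (3 ^ j * c), fun j => Pool.Agent.Y443.BE.efc_cont _,
    fun s a h => ?_, fun j z => ?_, fun p hp j => ⟨?_, ?_⟩⟩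
  · refine Pool.Agent.Y443.BE.indep hc s a ?_
    refine Pool.Agent.Y443.BE.zero_of_ae h1.aestronglyMeasurable.aemeasurable h2 ?_ h
    exact continuous_finset_sum _ fun j _ =>
      continuous_const.mul (Pool.Agent.Y443.BE.efc_cont _)
  · rw [← hk j]
    exact ⟨fun ε hε => Pool.Agent.Y443.BE.int_c (hne j) z hε,
      Pool.Agent.Y443.BE.pv_c (hne j) z⟩
  · exact Pool.Agent.Y443.BE.efc_memLp (hne j) (hstrip j) _
  · rintro S ⟨s1, s2, C, s3⟩ hS
    rw [← hk j]
    exact Pool.Agent.Y443.BE.fixc (hne j) (hstrip j) hp S s1 s2 s3 hS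

/-- (1) For `1 < α < 2` the weight `|z|^(-α)` is in `A_p` for every `p > 1`, and every complex
number of modulus one is an eigenvalue of infinite multiplicity of the Beurling operator on
`L^p(|z|^(-α))` for all `p > 1`. (2) For every locally integrable weight `w > 0` with finite mass
on the strip `|Re (c z)| ≤ 2`, `c ≠ 0`, the number `c / c̄` is an eigenvalue of infinite
multiplicity of the Beurling operator on `L^p(w)` for all `p > 1`. -/
theorem result :
    (∀ α : ℝ, 1 < α → α < 2 →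
      (∀ p : ℝ, 1 < p → IsAp p fun z => ‖z‖ ^ (-α)) ∧
      ∀ l : ℂ, ‖l‖ = 1 → InfiniteMultiplicity (fun z => ‖z‖ ^ (-α)) l) ∧
    (∀ w : ℂ → ℝ, LocallyIntegrable w → (∀ᵐ z : ℂ, 0 < w z) → ∀ c : ℂ, c ≠ 0 →
      weighted w {z | |(c * z).re| ≤ 2} < ⊤ →
        InfiniteMultiplicity w (c / (starRingEnd ℂ) c)) := by
  refine ⟨fun α h1 h2 => ⟨fun p hp => ⟨?_, ?_, 4 ^ α + 36 * Pool.Agent.Y443.BE.k1 α,
    fun a b hb => ?_⟩, fun l hl => ?_⟩, general⟩
  · exact Pool.Agent.Y443.BE.locInt_pw h2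
  · exact Pool.Agent.Y443.BE.pw_pos
  · exact Pool.Agent.Y443.BE.pw_Ap (by linarith) h2 hp a b hb
  · obtain ⟨c, hcl⟩ := IsAlgClosed.exists_pow_nat_eq l (n := 2) (by norm_num)
    have hn : ‖c‖ = 1 := by
      have h3 : ‖c‖ ^ 2 = 1 := by rw [← norm_pow, hcl, hl]
      nlinarith [norm_nonneg c]
    have hc : c ≠ 0 := by
      intro h
      rw [h, norm_zero] at hn
      exact zero_ne_one hn
    have hcc : c * (starRingEnd ℂ) c = 1 := by
      rw [Complex.mul_conj, Complex.normSq_eq_norm_sq, hn]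
      norm_num
    have e : c / (starRingEnd ℂ) c = l := by
      have h4 : (starRingEnd ℂ) c ≠ 0 := Pool.Agent.Y443.BE.conj_ne hc
      rw [div_eq_iff h4, ← hcl, pow_two, mul_assoc, hcc, mul_one]
    rw [← e]
    exact general _ (Pool.Agent.Y443.BE.locInt_pw h2) Pool.Agent.Y443.BE.pw_pos c hc
      (Pool.Agent.Y443.BE.strip_finite h1 h2 hc)

end Pool.Agent.Results.MP_c984ee_an.WholeCircle
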